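import Pool.Agent.U810.SM.Main

/-!
# The binary digits of almost all multiples `m √2` occur far more than `√n` times

No hypothesis is assumed.  For `√2` itself, and for every other real quadratic irrational, all known
lower bounds for the number of zeros and of ones among the first `n` binary digits are of the form
`c √n` with a fixed small `c` (for instance `c = √2`, `c = 7 / √24`, or `√(8 / π)` for infinitely
many `n`).  Here the multiples `m ξ` of a real quadratic irrational `ξ` are considered, for instance
`m √2`.  Among the `m < 2 ^ l`, for all but `13 / Q` of them, both digits occur at least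
`√(l n) / (200 log Q)` times, for all `n ≥ n₀ (ξ, l, Q)`; here `2 ≤ Q ≤ √l` is arbitrary.  So the
factor of `√n` tends to infinity with `l`.  In particular, for every `K`, all but
`30 M / √(log M)` of the `m < M` are such that for infinitely many `n` both digits occur at least
`K √n` times among the first `n` binary digits of `m ξ`.

Method.  (a) In base `b = 2 ^ L` at least `√N / 2` of the first `N` digits of a quadratic integer are
not zero, with a constant which does not depend on `b`.  So at least `√(L n) / 8` of the places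
`p < n` have a one among the next `L` binary digits.  This is applied to `D ξ` with `D = A Q!`.
(b) At such a place `θ = 2 ^ p ξ` is not slightly larger than a fraction with denominator at most `Q`,
and then at most `O(2 ^ l / Q)` of the `m < 2 ^ l` satisfy `fract (m θ) < 1 / (5 Q)` (a gap argument
for rotations).  (c) Double counting.
-/

set_option autoImplicit false

open Finset Filter

namespace Pool.Agent.Results.MP_0308e6_nt.AlmostAllMultiples

/-- the `k`-th binary digit of `y` after the point -/
noncomputable def digit (y : ℝ) (k : ℕ) : ℤ := ⌊y * 2 ^ k⌋ % 2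

/-- the number of the digits `v` among the first `n` binary digits of `y` after the point -/
noncomputable def count (v : ℤ) (y : ℝ) (n : ℕ) : ℕ :=
  ((Icc 1 n).filter (fun k => digit y k = v)).card

/-- For every real quadratic irrational `ξ` with `A ξ² + B ξ + C = 0`, `A > 0`: (1) for all
`l ≥ 1024 + 8 A` and `2 ≤ Q ≤ √l`, for all large `n`, for all but at most `13 · 2 ^ l / Q` of the
`m < 2 ^ l` both digits occur at least `√(l n) / (200 log Q)` times among the first `n` binary digits
of `m ξ`; (2) for every `K` and all large `M`, for all but at most `30 M / √(log M)` of the `m < M`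
there are infinitely many `n` such that both digits occur at least `K √n` times among the first `n`
binary digits of `m ξ`. -/
theorem result (A B C : ℤ) (hA : 0 < A) (ξ : ℝ) (hirr : Irrational ξ)
    (hq : (A : ℝ) * ξ ^ 2 + B * ξ + C = 0) :
    (∀ l Q : ℕ, 1024 + 8 * A ≤ l → 2 ≤ Q → Q ^ 2 ≤ l → ∃ n₀ : ℕ, ∀ n : ℕ, n₀ ≤ n →
      ({m : ℕ | m < 2 ^ l ∧
        ¬ (Real.sqrt (l * n) / (200 * Real.log Q) ≤ count 0 (m * ξ) n ∧
          Real.sqrt (l * n) / (200 * Real.log Q) ≤ count 1 (m * ξ) n)}.ncard : ℝ) ≤
        13 * (2 : ℝ) ^ l / Q) ∧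
    (∀ K : ℝ, ∃ M₀ : ℕ, ∀ M : ℕ, M₀ ≤ M →
      ({m : ℕ | m < M ∧ ¬ ∃ᶠ n : ℕ in atTop,
        K * Real.sqrt n ≤ count 0 (m * ξ) n ∧ K * Real.sqrt n ≤ count 1 (m * ξ) n}.ncard : ℝ) ≤
        30 * M / Real.sqrt (Real.log M)) := by
  classical
  refine ⟨fun l Q hl hQ hQl => ?_, fun K => Pool.Agent.U810.SM.frequently hA hirr hq K⟩
  obtain ⟨n0, h⟩ := Pool.Agent.U810.SM.both hA hirr hq l Q (by omega) hQ hQl
  refine ⟨n0, fun n hn => ?_⟩
  refine le_trans (le_of_eq ?_) (h n hn)
  have e : {m : ℕ | m < 2 ^ l ∧
        ¬ (Real.sqrt (l * n) / (200 * Real.log Q) ≤ count 0 (m * ξ) n ∧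
          Real.sqrt (l * n) / (200 * Real.log Q) ≤ count 1 (m * ξ) n)} =
      (((range (2 ^ l)).filter (fun m : ℕ =>
        ¬ (Real.sqrt (l * n) / (200 * Real.log Q) ≤ Pool.Agent.U810.SM.count 0 (m * ξ) n ∧
          Real.sqrt (l * n) / (200 * Real.log Q) ≤ Pool.Agent.U810.SM.count 1 (m * ξ) n)) :
            Finset ℕ) : Set ℕ) := by
    ext m
    simp only [Set.mem_ofPred_eq, coe_filter, mem_range]
    rfl
  rw [e, Set.ncard_coe_finset]

end Pool.Agent.Results.MP_0308e6_nt.AlmostAllMultiples
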