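import Pool.Agent.U864.DL.Lang3

/-!
# The longest words of a language in the binary digits of the multiples of `√2`

Let `𝓛` be a language (a set of words) over the digits `0, …, b - 1` with the growth rate `θ`, where
`0 < θ < b`: it has `θ ^ (w + o(w))` words of length `w`. In a random sequence of digits the longest word of
`𝓛` which starts at one of `N` consecutive places has length `(1 + o(1)) log N / log (b / θ)`. For
the powers of one digit (`θ = 1`) this is the theorem of Erdős and Rényi on the longest run; for the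
words with a proportion of ones at least `a > 1 / 2` it is the new law of large numbers of Erdős and
Rényi; further examples are the longest stretch without a given word, the longest palindrome
(`θ = √b`), the longest square `u u`, the longest word of a subshift. Nothing of the kind is known
for the digits of `√2` itself. We prove it, for every language,

1. for almost all multiples `m √2 + y`, `m ≤ M`, and all windows inside of the first `A log M` binary
   digits (`A` is as large as we like, so the windows may lie far beyond the place `log_2 M`);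
2. more generally, in all bases, for `m_1 ω_1 + ⋯ + m_d ω_d + y`, if one of the real numbers `ω_j` is
   algebraic and irrational.

The law holds at the same time for all lengths `N ≥ N₀` of the window, where `N₀` depends only on the
language and the proportion `ε` of the exceptions (and not on `M`).

Proof. By the subspace theorem the events which depend on boundedly many words of digits have nearly
the same probability as for random digits (starting files `Y933/KD` of helper933, `N639/FG/TR` of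
helper639: sums over all `k`-tuples of places of arbitrary bounded functions of `k` words). New here
(`Pool/Agent/U864/DL/Lang.lean`, `Lang2.lean`): the first moment of the number of words in `𝓛`
at all places and the second moment at separated places, for each length `w ≤ C log N` and each
`N = 2 ^ j`, with errors which can be summed over `w` and `j`, and the passage to all `N`.
-/

set_option autoImplicit false

namespace Pool.Agent.Results.MP_0308e6_nt.LongestWordsOfLanguages

open Finset Real Polynomial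
open Pool.Agent.U864.DL (block wordsOf GrowthRate PrefixClosed LongestWordLaw)

open Classical in
/-- **The longest words of a language** (1) in the binary digits of `m √2 + y`, `1 ≤ m ≤ M`, (2) in the
digits in base `b` of `∑ m_j ω_j + y`, where some `ω_j` is algebraic and irrational. -/
theorem result :
    (∀ (𝓛 : Set (List ℕ)) (θ : ℝ), 0 < θ → θ < 2 → GrowthRate 2 𝓛 θ → ∀ A C ε : ℝ, 0 < A → 0 < ε →
      ∃ w₀ N₀ M₀ : ℕ, ∀ M : ℕ, M₀ ≤ M → ∀ (y : ℝ) (s : ℕ), (s : ℝ) ≤ A * log M →
      (((Icc 1 M).filter fun m : ℕ =>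
        ¬ LongestWordLaw 2 𝓛 θ C ε w₀ N₀ s (A * log M) (m * √2 + y)).card : ℝ) ≤ ε * M) ∧
    (∀ (d : ℕ) (ω : Fin d → ℝ) (j₀ : Fin d), IsAlgebraic ℚ (ω j₀) → Irrational (ω j₀) →
      ∀ (b : ℕ) (𝓛 : Set (List ℕ)) (θ : ℝ), 2 ≤ b → 0 < θ → θ < b → GrowthRate b 𝓛 θ →
      ∀ A C ε : ℝ, 0 < A → 0 < ε → ∃ w₀ N₀ M₀ : ℕ, ∀ M : ℕ, M₀ ≤ M →
      ∀ (y : ℝ) (s : ℕ), (s : ℝ) ≤ A * log M →
      (((Fintype.piFinset fun _ : Fin d => Icc 1 M).filter fun m : Fin d → ℕ =>
        ¬ LongestWordLaw b 𝓛 θ C ε w₀ N₀ s (A * log M) (∑ j, m j * ω j + y)).card : ℝ) ≤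
          ε * (M : ℝ) ^ d) := by
  have P2 : ∀ (d : ℕ) (ω : Fin d → ℝ) (j₀ : Fin d), IsAlgebraic ℚ (ω j₀) → Irrational (ω j₀) →
      ∀ (b : ℕ) (𝓛 : Set (List ℕ)) (θ : ℝ), 2 ≤ b → 0 < θ → θ < b → GrowthRate b 𝓛 θ →
      ∀ A C ε : ℝ, 0 < A → 0 < ε → ∃ w₀ N₀ M₀ : ℕ, ∀ M : ℕ, M₀ ≤ M →
      ∀ (y : ℝ) (s : ℕ), (s : ℝ) ≤ A * log M →
      (((Fintype.piFinset fun _ : Fin d => Icc 1 M).filter fun m : Fin d → ℕ =>
        ¬ LongestWordLaw b 𝓛 θ C ε w₀ N₀ s (A * log M) (∑ j, m j * ω j + y)).card : ℝ) ≤
          ε * (M : ℝ) ^ d := by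
    intro d ω j₀ halg hirr b 𝓛 θ hb hθ hθb hg A C ε hA hε
    obtain ⟨w₀, N₀, h0⟩ := Pool.Agent.U864.DL.longest_word hb
      (Pool.Agent.N639.FG.tg_SM ω j₀ halg hirr hA hb) 𝓛 hθ hθb hg C hε
    obtain ⟨M₀, hM₀⟩ := Filter.eventually_atTop.1 h0
    refine ⟨w₀, N₀, M₀, fun M hM y s hs => ?_⟩
    obtain ⟨V, hV1, hV2, hV3⟩ := hM₀ M hM _ ⟨y, rfl⟩ s hs
    have key := Pool.Agent.N639.FG.cnt_of hV1 hV2
      (Q := fun m : Fin d → ℕ =>
        LongestWordLaw b 𝓛 θ C ε w₀ N₀ s (A * log M) (∑ j, m j * ω j + y))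
      (fun m _ hm => hV3 _ hm)
    rw [Pool.Agent.Y933.KD.card_box] at key
    push_cast at key
    exact key
  refine ⟨?_, P2⟩
  intro 𝓛 θ hθ hθ2 hg A C ε hA hε
  have halg : IsAlgebraic ℚ (√2 : ℝ) := by
    refine ⟨X ^ 2 - Polynomial.C 2, (Polynomial.monic_X_pow_sub_C (2 : ℚ) (by norm_num)).ne_zero, ?_⟩
    rw [map_sub, map_pow, aeval_X, aeval_C, Real.sq_sqrt (by norm_num : (0 : ℝ) ≤ 2), map_ofNat,
      sub_self]
  obtain ⟨w₀, N₀, M₀, h⟩ := P2 1 (fun _ => √2) 0 halg irrational_sqrt_two 2 𝓛 θ le_rfl hθ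
    (by exact_mod_cast hθ2) hg A C ε hA hε
  refine ⟨w₀, N₀, M₀, fun M hM y s hs => ?_⟩
  have key := h M hM y s hs
  rw [pow_one] at key
  refine le_trans (le_of_eq ?_) key
  have h1 := Pool.Agent.U864.DL.card_box_one M
    (fun m => ¬ LongestWordLaw 2 𝓛 θ C ε w₀ N₀ s (A * log M) (∑ j, (m j : ℝ) * √2 + y))
    (fun m => ¬ LongestWordLaw 2 𝓛 θ C ε w₀ N₀ s (A * log M) (m * √2 + y))
    fun m => by rw [Fin.sum_univ_one]
  exact congrArg (Nat.cast : ℕ → ℝ) h1.symm

end Pool.Agent.Results.MP_0308e6_nt.LongestWordsOfLanguages
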