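import Pool.Agent.Y933.KD.Clt2

/-!
# A central limit theorem for the digits of the multiples of an algebraic irrational number

Let `x` be a real algebraic irrational number. We look at the digits of the multiples `m x`, where
`m` is chosen at random among `M` consecutive integers, and more generally at the digits of
`m_1 ω_1 + ⋯ + m_d ω_d + y`, where `ω_1, …, ω_d` are real numbers, at least one of which is
algebraic and irrational (for instance a basis of a real number field), where `(m_1, …, m_d)` is
chosen at random in a cube with `M` integers in each direction, and where `y` is any real number. The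
position of the cube and the number `y` may depend on `M` in an arbitrary way.

Let `A` be arbitrarily large, and let `F` be any real function of words of `w` digits in base `b` with
positive asymptotic variance `σ²` (for instance the indicator function of a digit). Take any window of
`N` places `s, …, s + N - 1` among the first `A log M` places, with `N → ∞`, for instance a window
which starts far beyond the place `log M`. Then the sum of `F` over the words at these places, minus
`N` times the mean of `F` and divided by `σ √N`, is asymptotically normally distributed, as it is for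
a random sequence of digits. The variance is given by an explicit finite formula.

Proof. By the subspace theorem (Ridout's theorem for several terms) the number
`h x (c_1 b^(i_1) + ⋯ + c_k b^(i_k))`, `i_j ≤ A log M`, is not closer than `M^(-1 + c)` to an integer, unless
the sum in brackets vanishes. So the Fourier coefficients of the distribution of the random number are
small for all frequencies which are needed, and the moments of the sum can be compared with those
for random digits.
-/

set_option autoImplicit false

namespace Pool.Agent.Results.MP_f2f914_nt.MultiplesGaussian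

open Filter Topology

/-- the word of the `k` digits in base `b` of `y` which follow the first `n` digits after the point,
read as an integer between `0` and `b ^ k - 1` -/
noncomputable def word (b k n : ℕ) (y : ℝ) : ℕ :=
  ⌊(b : ℝ) ^ k * Int.fract ((b : ℝ) ^ n * y)⌋₊

/-- the mean of `F` over all `b ^ w` words of `w` digits in base `b` -/
noncomputable def mean (b w : ℕ) (F : ℕ → ℝ) : ℝ :=
  (∑ u ∈ Finset.range (b ^ w), F u) / (b : ℝ) ^ w

/-- the covariance of `F(W_0)` and `F(W_h)`, where `W_i` is the word of the `w` digits after the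
first `i` digits of a sequence of independent uniformly distributed digits in base `b`. It is
computed as a mean over the words `u` of `w + h` digits; `u / b ^ h` is the word of its first `w`
digits and `u % b ^ w` the word of its last `w` digits. -/
noncomputable def cov (b w : ℕ) (F : ℕ → ℝ) (h : ℕ) : ℝ :=
  (∑ u ∈ Finset.range (b ^ (w + h)),
    (F (u / b ^ h) - mean b w F) * (F (u % b ^ w) - mean b w F)) / (b : ℝ) ^ (w + h)

/-- the asymptotic variance of the sums of `F` over the words of `w` digits of a random sequence of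
digits, `cov 0 + 2 (cov 1 + ⋯ + cov (w - 1))` -/
noncomputable def sigma2 (b w : ℕ) (F : ℕ → ℝ) : ℝ :=
  cov b w F 0 + 2 * ∑ h ∈ Finset.Ico 1 w, cov b w F h

open Pool.Agent.Y933.KD in
/-- the translation of the cube -/
lemma count_eq {d : ℕ} (L : Fin d → ℤ) (M : ℕ) (ω : Fin d → ℝ) (y : ℝ) (p : ℝ → Prop)
    [DecidablePred fun m : Fin d → ℕ => p (comb ω (y + ∑ j, (L j : ℝ) * ω j) m)] :
    {m : Fin d → ℤ | (∀ j, L j < m j ∧ m j ≤ L j + M) ∧ p (∑ j, (m j : ℝ) * ω j + y)}.ncard =
      ((box d M).filter fun m => p (comb ω (y + ∑ j, (L j : ℝ) * ω j) m)).card := by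
  rw [← Set.ncard_coe_finset]
  have hval : ∀ m : Fin d → ℕ, comb ω (y + ∑ j, (L j : ℝ) * ω j) m =
      ∑ j, (((L j + (m j : ℤ) : ℤ)) : ℝ) * ω j + y := by
    intro m
    unfold comb
    push_cast
    simp only [add_mul, Finset.sum_add_distrib]
    ring
  symm
  refine Set.ncard_congr (fun m _ j => L j + (m j : ℤ)) ?_ ?_ ?_
  · intro m hm
    simp only [Finset.coe_filter, Set.mem_ofPred_eq, box, Fintype.mem_piFinset, Finset.mem_Icc]
      at hm ⊢
    refine ⟨fun j => ?_, ?_⟩
    · have := hm.1 j
      constructor <;> omega
    · rw [← hval]; exact hm.2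
  · intro m m' _ _ h
    funext j
    have := congrFun h j
    omega
  · intro m hm
    simp only [Set.mem_ofPred_eq] at hm
    have hj : ∀ j, (((m j - L j).toNat : ℕ) : ℤ) = m j - L j := fun j =>
      Int.toNat_of_nonneg (by have := hm.1 j; omega)
    have hfun : (fun j => L j + (((m j - L j).toNat : ℕ) : ℤ)) = m := by
      funext j; rw [hj]; ring
    refine ⟨fun j => (m j - L j).toNat, ?_, hfun⟩
    simp only [Finset.coe_filter, Set.mem_ofPred_eq, box, Fintype.mem_piFinset, Finset.mem_Icc]
    refine ⟨fun j => ?_, ?_⟩
    · have := hm.1 j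
      constructor <;> omega
    · rw [hval]
      simp only [hj, add_sub_cancel]
      exact hm.2

/-- Let `ω_1, …, ω_d` be real numbers, one of which is algebraic and irrational; let `b ≥ 2`, `w ≥ 1`,
let `F` be a real function of the words of `w` digits in base `b` with `sigma2 b w F > 0`, and let `A`
be any number. Let `L M ∈ ℤ^d` and `y M ∈ ℝ` be arbitrary, and let `s, N` be sequences with `N → ∞` and
`s M + N M ≤ A log M` for all large `M`. Then the proportion of the `m ∈ ∏_j (L_j, L_j + M]` for which
`∑_{i < N} F(word b w (s + i) z) - N mean ≤ a √(sigma2 N)`, `z = m_1 ω_1 + ⋯ + m_d ω_d + y`, tends to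
the value at `a` of the distribution function of the standard normal distribution, for every real
number `a`. -/
theorem result (d : ℕ) (ω : Fin d → ℝ) (hω : ∃ j, IsAlgebraic ℚ (ω j) ∧ Irrational (ω j))
    (b w : ℕ) (F : ℕ → ℝ) (hb : 2 ≤ b) (hw : 1 ≤ w) (hσ : 0 < sigma2 b w F) (A : ℝ)
    (L : ℕ → Fin d → ℤ) (y : ℕ → ℝ) (s N : ℕ → ℕ) (hN : Tendsto N atTop atTop)
    (hsN : ∀ᶠ M : ℕ in atTop, (s M : ℝ) + N M ≤ A * Real.log M) (a : ℝ) :
    Tendsto (fun M : ℕ => (({m : Fin d → ℤ | (∀ j, L M j < m j ∧ m j ≤ L M j + M) ∧
        ∑ i ∈ Finset.range (N M), F (word b w (s M + i) (∑ j, (m j : ℝ) * ω j + y M)) -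
          N M * mean b w F ≤ a * √(sigma2 b w F * N M)}.ncard : ℕ) : ℝ) / (M : ℝ) ^ d) atTop
      (𝓝 ((ProbabilityTheory.gaussianReal 0 1).real (Set.Iic a))) := by
  classical
  obtain ⟨j0, halg, hirr⟩ := hω
  have hb1 : 1 ≤ b := by omega
  let Z : ℕ → ℝ := fun M => y M + ∑ j, (L M j : ℝ) * ω j
  let P : ℕ → MeasureTheory.Measure ℝ := fun M =>
    if M = 0 then Pool.Agent.Y933.KD.Leb else
      Pool.Agent.Y933.KD.unif (Pool.Agent.Y933.KD.box d M) (Pool.Agent.Y933.KD.comb ω (Z M))
  have hP : ∀ M, MeasureTheory.IsProbabilityMeasure (P M) := by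
    intro M
    simp only [P]
    split_ifs with h
    · infer_instance
    · exact Pool.Agent.Y933.KD.SM_prob ω M (by omega) _ ⟨_, rfl⟩
  have h1 := Pool.Agent.Y933.KD.clt_family (G := Pool.Agent.Y933.KD.cen b w F) hb1 hw
    (Pool.Agent.Y933.KD.cen_le b w F) (Pool.Agent.Y933.KD.cen_sum hb1 F)
    (by rw [Pool.Agent.Y933.KD.sigma2_cen hb1]; exact hσ)
    (Pool.Agent.Y933.KD.SM_prob ω)
    (fun k => Pool.Agent.Y933.KD.good_mult ω j0 halg hirr b k A) P (by
      filter_upwards [eventually_ge_atTop 1] with M hM
      simp only [P]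
      rw [if_neg (by omega)]
      exact ⟨_, rfl⟩) s N hN (by
      filter_upwards [hsN] with M hM
      push_cast
      exact hM) a
  refine h1.congr' ?_
  filter_upwards [eventually_ge_atTop 1] with M hM
  have hmeas : MeasurableSet {z | Pool.Agent.Y933.KD.WS b w (Pool.Agent.Y933.KD.cen b w F) (s M)
      (N M) z ≤ a * √(Pool.Agent.Y933.KD.sigma2 b w (Pool.Agent.Y933.KD.cen b w F) * N M)} :=
    measurableSet_le (Pool.Agent.Y933.KD.measurable_WS _ _ _ _ _) measurable_const
  have hset : {m : Fin d → ℤ | (∀ j, L M j < m j ∧ m j ≤ L M j + M) ∧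
        ∑ i ∈ Finset.range (N M), F (word b w (s M + i) (∑ j, (m j : ℝ) * ω j + y M)) -
          N M * mean b w F ≤ a * √(sigma2 b w F * N M)}.ncard =
      ((Pool.Agent.Y933.KD.box d M).filter fun m =>
        Pool.Agent.Y933.KD.comb ω (Z M) m ∈
          {z | Pool.Agent.Y933.KD.WS b w (Pool.Agent.Y933.KD.cen b w F) (s M) (N M) z ≤
            a * √(Pool.Agent.Y933.KD.sigma2 b w (Pool.Agent.Y933.KD.cen b w F) * N M)}).card := by
    rw [← count_eq (L M) M ω (y M) (fun z => z ∈ {z | Pool.Agent.Y933.KD.WS b w
      (Pool.Agent.Y933.KD.cen b w F) (s M) (N M) z ≤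
        a * √(Pool.Agent.Y933.KD.sigma2 b w (Pool.Agent.Y933.KD.cen b w F) * N M)})]
    congr 1
    ext m
    simp only [Set.mem_ofPred_eq, Pool.Agent.Y933.KD.WS_cen hb1, Pool.Agent.Y933.KD.sigma2_cen hb1]
    rfl
  simp only [P]
  rw [if_neg (by omega), Pool.Agent.Y933.KD.real_unif _ _ hmeas, Pool.Agent.Y933.KD.card_box,
    hset]
  push_cast
  rfl

end Pool.Agent.Results.MP_f2f914_nt.MultiplesGaussian
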