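import Mathlib
import Pool.Agent.H847R3.SuppF
import Pool.Agent.U710.NB.Fin

/-!
# `e`, `π`, `√2` and all other non-Liouville numbers in nearly all integer bases

Let `x` be `e`, `π`, `√2`, or any irrational real number which is not a Liouville number. For a
single base `b ≥ 2` nothing is known about the distribution of the points `x b ^ n` modulo one, i.e.
of the base `b` digits of `x` (the `(n + 1)`-st digit after the point is `⌊b {x b ^ n}⌋`). By
Koksma's theorem `(x β ^ n)` is uniformly distributed modulo one for almost all REAL `β > 1`. Here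
we look at the INTEGER bases, and at the beginning of the expansions: we prove that in nearly all
bases `b` the first `(log b) ^ δ` digits, `δ < 1 / 2`, are distributed as those of a random number.
Let `δ, β > 0` and `2 δ + β < 1`.

(1) In all bases `b ≤ B` with at most `B exp (-(log B) ^ β)` exceptions all blocks of `k` consecutive
digits in any window of `N` places among the first `(log b) ^ δ` places are uniformly distributed,
with the random discrepancy `√N`, up to a factor `(log b) ^ β` (`β` may be arbitrarily small).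

(2) Independence. For distinct `n_1, …, n_k ≤ (log B) ^ δ` the fractional parts of
`x b ^ (n_1), …, x b ^ (n_k)`, for a random base `b ≤ B`, are independent and uniformly distributed,
up to an error `exp (-(log B) ^ β)`, uniformly in the `n_i`.

(3) Both parts are consequences of a bound for Weyl sums of large degree: if `G` is any integral
polynomial of degree between `1` and `(log B) ^ δ`, with coefficients up to `exp ((log B) ^ β)`, then
`|∑_{b ≤ B} exp (2 π i x G(b))| ≤ B exp (-(log B) ^ β)`.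

Proof of (3). The sum is averaged over shifts `b + u v`, `u, v ≤ M = B ^ (1 / 3)`; the bilinear sums
are estimated by Vinogradov's mean value theorem (twice Hölder's inequality, from the starting files
`Pool.Agent.Y957.VK`, `Pool.Agent.N586.AN.Vm`). The coefficients of the polynomial `x G(b + t)` in `t`
are integral multiples `x K_j`; as `x` is not a Liouville number, the factors of the large indices
`j ≥ (1 - c) deg G`, for which `|K_j|` is smaller than a small power of `M ^ j`, save a power of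
`M ^ j`. For (1) moments of order `2 (log B) ^ β` over the bases are used: a solution of
`∑ b ^ (u_i) = ∑ b ^ (v_i)` (identically in `b`) is a permutation.
-/

set_option autoImplicit false

namespace Pool.Agent.Results.MP_7e9a3a_nt.NearlyAllBases

open scoped Polynomial

/-- in every window of `N` places `s < n ≤ s + N` with `s + N ≤ M`, and for every box in `[0, 1) ^ k`,
the number of the places `n` such that the point with the coordinates `x b ^ n, …, x b ^ (n + k - 1)`
modulo one is in the box is `N` times the volume of the box, up to an error `√N E` -/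
def UniformUpTo (x : ℝ) (b k : ℕ) (M E : ℝ) : Prop :=
  ∀ s N : ℕ, (s : ℝ) + N ≤ M → ∀ α γ : Fin k → ℝ, (∀ i, 0 ≤ α i ∧ α i ≤ γ i ∧ γ i ≤ 1) →
    |(({n : ℕ | s < n ∧ n ≤ s + N ∧ ∀ i : Fin k, α i ≤ Int.fract (x * (b : ℝ) ^ (n + (i : ℕ))) ∧
      Int.fract (x * (b : ℝ) ^ (n + (i : ℕ))) < γ i}.ncard : ℕ) : ℝ) - N * ∏ i, (γ i - α i)| ≤ √N * E

/-- Let `x` be `e`, `π`, `√2`, or any irrational real number which is not a Liouville number; let
`δ, β > 0` and `2 δ + β < 1`.
(1) For every `k` and all large `B`: for all integers `1 ≤ b ≤ B` with at most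
`B exp (-(log B) ^ β)` exceptions the points `x b ^ n, …, x b ^ (n + k - 1)` modulo one are uniformly
distributed in all windows of `N` places among the first `(log b) ^ δ` places, with error
`√N (log b) ^ β`.
(2) For every `k` and all large `B`: for distinct `n_1, …, n_k` with `1 ≤ n_i ≤ (log B) ^ δ` and every
box the proportion of the `b ≤ B` for which `(x b ^ (n_1), …, x b ^ (n_k))` modulo one is in the box
differs from the volume of the box by at most `exp (-(log B) ^ β)`.
(3) For all large `B` and every integral polynomial `G` of degree `1 ≤ deg G ≤ (log B) ^ δ` with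
coefficients at most `exp ((log B) ^ β)`, the sum of `exp (2 π i x G(b))` over `b ≤ B` is at most
`B exp (-(log B) ^ β)` in absolute value. -/
theorem result (x : ℝ) (hx : x = Real.exp 1 ∨ x = Real.pi ∨ x = √2 ∨ (Irrational x ∧ ¬ Liouville x))
    (δ β : ℝ) (hδ : 0 < δ) (hβ : 0 < β) (hδβ : 2 * δ + β < 1) :
    (∀ k : ℕ, ∃ B₀ : ℕ, ∀ B : ℕ, B₀ ≤ B →
      (({b : ℕ | 1 ≤ b ∧ b ≤ B ∧ ¬ UniformUpTo x b k ((Real.log b) ^ δ) ((Real.log b) ^ β)}.ncard : ℕ) : ℝ)
        ≤ B * Real.exp (-(Real.log B) ^ β)) ∧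
    (∀ k : ℕ, ∃ B₀ : ℕ, ∀ B : ℕ, B₀ ≤ B → ∀ n : Fin k → ℕ, Function.Injective n →
      (∀ i, 1 ≤ n i ∧ (n i : ℝ) ≤ (Real.log B) ^ δ) → ∀ α γ : Fin k → ℝ,
      (∀ i, 0 ≤ α i ∧ α i ≤ γ i ∧ γ i ≤ 1) →
      |(({b : ℕ | 1 ≤ b ∧ b ≤ B ∧ ∀ i, α i ≤ Int.fract (x * (b : ℝ) ^ n i) ∧
        Int.fract (x * (b : ℝ) ^ n i) < γ i}.ncard : ℕ) : ℝ) / B - ∏ i, (γ i - α i)| ≤
        Real.exp (-(Real.log B) ^ β)) ∧
    (∃ B₀ : ℕ, ∀ B : ℕ, B₀ ≤ B → ∀ G : ℤ[X], 1 ≤ G.natDegree →
      (G.natDegree : ℝ) ≤ (Real.log B) ^ δ →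
      (∀ i, |(G.coeff i : ℝ)| ≤ Real.exp ((Real.log B) ^ β)) →
      ‖∑ b ∈ Finset.Icc 1 B, Complex.exp (2 * Real.pi * Complex.I * (x * (G.eval (b : ℤ) : ℤ)))‖ ≤
        B * Real.exp (-(Real.log B) ^ β)) := by
  classical
  have hgood : Irrational x ∧ ¬ Liouville x := by
    rcases hx with rfl | rfl | rfl | h
    · exact Pool.Agent.H847R3.XpXq.e_good
    · exact Pool.Agent.H847R3.XpXq.pi_good
    · exact Pool.Agent.H847R3.XpXq.sqrt_two_good
    · exact h
  refine ⟨fun k => ?_, fun k => ?_, ?_⟩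
  · obtain ⟨B₀, hB₀⟩ := Pool.Agent.U710.NB.nearly_all x hgood.1 hgood.2 k δ β hδ hβ hδβ
    refine ⟨B₀, fun B hB => le_trans (Nat.cast_le.2 ?_) (hB₀ B hB)⟩
    apply Set.ncard_le_ncard
    · rintro b ⟨h1, h2, h3⟩
      refine ⟨h1, h2, fun h4 => h3 ?_⟩
      intro s N hsN α γ hαγ
      have h5 := h4 s N (Nat.le_floor (by push_cast; exact hsN)) α γ (fun i => (hαγ i).1)
        (fun i => (hαγ i).2.1) (fun i => (hαγ i).2.2)
      refine le_trans (le_of_eq ?_) h5
      congr 3
      rw [← Set.ncard_coe_finset]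
      congr 1
      ext n
      simp [and_assoc]
    · exact (Finset.finite_toSet (Finset.Icc 1 B)).subset fun b hb => by
        rw [Finset.mem_coe, Finset.mem_Icc]
        exact ⟨hb.1, hb.2.1⟩
  · obtain ⟨B₀, hB₀⟩ := Pool.Agent.U710.NB.independence x hgood.1 hgood.2 k δ β hδ hβ hδβ
    refine ⟨max B₀ 1, fun B hB n hn hn1 α γ hαγ => ?_⟩
    have hB1 : (0 : ℝ) < B := by
      have : 1 ≤ B := (le_max_right _ _).trans hB
      exact_mod_cast this
    have h1 := hB₀ B ((le_max_left _ _).trans hB) n hn (fun i => (hn1 i).1) (fun i => (hn1 i).2) α γ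
      (fun i => (hαγ i).1) (fun i => (hαγ i).2.1) (fun i => (hαγ i).2.2)
    have h2 : {b : ℕ | 1 ≤ b ∧ b ≤ B ∧ ∀ i, α i ≤ Int.fract (x * (b : ℝ) ^ n i) ∧
        Int.fract (x * (b : ℝ) ^ n i) < γ i} = (((Finset.Icc 1 B).filter (fun b : ℕ => ∀ i,
        α i ≤ Int.fract (x * (b : ℝ) ^ n i) ∧ Int.fract (x * (b : ℝ) ^ n i) < γ i) : Finset ℕ) : Set ℕ) := by
      ext b
      simp [and_assoc]
    rw [h2, Set.ncard_coe_finset]
    have h3 : ((((Finset.Icc 1 B).filter (fun b : ℕ => ∀ i, α i ≤ Int.fract (x * (b : ℝ) ^ n i) ∧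
        Int.fract (x * (b : ℝ) ^ n i) < γ i)).card : ℕ) : ℝ) / B - ∏ i, (γ i - α i) =
        (((((Finset.Icc 1 B).filter (fun b : ℕ => ∀ i, α i ≤ Int.fract (x * (b : ℝ) ^ n i) ∧
        Int.fract (x * (b : ℝ) ^ n i) < γ i)).card : ℕ) : ℝ) - B * ∏ i, (γ i - α i)) / B := by
      field_simp
    rw [h3, abs_div, abs_of_pos hB1, div_le_iff₀ hB1, mul_comm (Real.exp _) _]
    exact h1
  · obtain ⟨B₀, hB₀⟩ := Pool.Agent.U710.NB.weyl_asym x hgood.1 hgood.2 δ β hδ hβ hδβ
    refine ⟨B₀, fun B hB G h1 h2 h3 => le_trans (le_of_eq ?_) (hB₀ B hB G h1 h2 h3)⟩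
    congr 1
    refine Finset.sum_congr rfl fun b _ => ?_
    unfold Pool.Agent.U710.NB.e
    congr 2
    push_cast
    rfl

end Pool.Agent.Results.MP_7e9a3a_nt.NearlyAllBases
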