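import Pool.Agent.U864.DL.Basic

/-!
# The longest repeated word in the binary digits of the multiples of `√2`

Among `N` consecutive random binary digits the longest word which occurs twice (starting at
two different places) has length `(2 + o(1)) log_2 N`. In particular nearly all words of that length
are different from each other, so this is a strong form of randomness; for the first `N` digits of `√2`
itself the subspace theorem gives only the upper bound `o(N)`. We prove the law

1. for almost all multiples `m √2 + y`, `m ≤ M`, and all windows inside of the first `A log M` digits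
   (`A` is as large as we like, so the windows may lie far beyond the place `log_2 M`);
2. more generally, in all bases, for `m_1 ω_1 + ⋯ + m_d ω_d + y`, if one of the real numbers `ω_j` is
   algebraic and irrational.

The law holds at the same time for all lengths `N ≥ N₀` of the window, where `N₀` depends only on the
proportion `ε` of the exceptions (and not on `M`).

Proof. By the subspace theorem the events which depend on boundedly many words of digits have nearly the
same probability as for random digits (starting files `Y933/KD` of helper933). The upper bound is the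
first moment of the number of the repetitions, the lower bound the second moment (starting files
`N639/FG/C2`, `N639/FG/Grid` of helper639, following helper407); it is enough to look at `N = 2 ^ j` and at
the last `N`, because everything is monotone in `N`.
-/

set_option autoImplicit false

namespace Pool.Agent.Results.MP_0308e6_nt.RepeatedWords

open Finset Real Polynomial

/-- the digit in base `b` of `x` which follows the first `n` digits after the point -/
noncomputable def digit (b n : ℕ) (x : ℝ) : ℕ := ⌊(b : ℝ) * Int.fract ((b : ℝ) ^ n * x)⌋₊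

/-- the same word of `w` digits follows the first `i` digits and the first `j` digits after the point,
for some places `s ≤ i < j < s + N` -/
def Repeated (b w s N : ℕ) (x : ℝ) : Prop :=
  ∃ i j : ℕ, s ≤ i ∧ i < j ∧ j < s + N ∧ ∀ k < w, digit b (i + k) x = digit b (j + k) x

/-- for all `N` with `N₀ ≤ N ≤ L`: among the words which start at the places `s, …, s + N - 1` there
are two equal words of every length `w ≤ (2 - ε) log_b N`, and there are no two equal words which are
longer than `(2 + ε) log_b N` -/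
def RepLaw (b s N₀ : ℕ) (L ε : ℝ) (x : ℝ) : Prop :=
  ∀ N : ℕ, N₀ ≤ N → (N : ℝ) ≤ L →
    (∀ w : ℕ, (w : ℝ) ≤ (2 - ε) * logb b N → Repeated b w s N x) ∧
    (∀ w : ℕ, Repeated b w s N x → (w : ℝ) ≤ (2 + ε) * logb b N)

open Classical in
/-- **The longest repeated word** (1) in the binary digits of `m √2 + y`, `1 ≤ m ≤ M`, (2) in the
digits in base `b` of `∑ m_j ω_j + y`, where some `ω_j` is algebraic and irrational. -/
theorem result :
    (∀ A ε : ℝ, 0 < A → 0 < ε → ∃ N₀ M₀ : ℕ, ∀ M : ℕ, M₀ ≤ M → ∀ (y : ℝ) (s : ℕ),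
      (s : ℝ) ≤ A * log M →
      (((Icc 1 M).filter fun m : ℕ => ¬ RepLaw 2 s N₀ (A * log M) ε (m * √2 + y)).card : ℝ) ≤
        ε * M) ∧
    (∀ (d : ℕ) (ω : Fin d → ℝ) (j₀ : Fin d), IsAlgebraic ℚ (ω j₀) → Irrational (ω j₀) →
      ∀ (b : ℕ) (A ε : ℝ), 2 ≤ b → 0 < A → 0 < ε → ∃ N₀ M₀ : ℕ, ∀ M : ℕ, M₀ ≤ M →
      ∀ (y : ℝ) (s : ℕ), (s : ℝ) ≤ A * log M →
      (((Fintype.piFinset fun _ : Fin d => Icc 1 M).filter fun m : Fin d → ℕ =>
        ¬ RepLaw b s N₀ (A * log M) ε (∑ j, m j * ω j + y)).card : ℝ) ≤ ε * (M : ℝ) ^ d) := by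
  have P2 : ∀ (d : ℕ) (ω : Fin d → ℝ) (j₀ : Fin d), IsAlgebraic ℚ (ω j₀) → Irrational (ω j₀) →
      ∀ (b : ℕ) (A ε : ℝ), 2 ≤ b → 0 < A → 0 < ε → ∃ N₀ M₀ : ℕ, ∀ M : ℕ, M₀ ≤ M →
      ∀ (y : ℝ) (s : ℕ), (s : ℝ) ≤ A * log M →
      (((Fintype.piFinset fun _ : Fin d => Icc 1 M).filter fun m : Fin d → ℕ =>
        ¬ RepLaw b s N₀ (A * log M) ε (∑ j, m j * ω j + y)).card : ℝ) ≤ ε * (M : ℝ) ^ d := by
    intro d ω j₀ halg hirr b A ε hb hA hε
    obtain ⟨N₀, h0⟩ := Pool.Agent.U864.DL.rep_law hb
      (Pool.Agent.N639.FG.tg_SM ω j₀ halg hirr hA hb) hε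
    obtain ⟨M₀, hM₀⟩ := Filter.eventually_atTop.1 h0
    refine ⟨N₀, M₀, fun M hM y s hs => ?_⟩
    obtain ⟨V, hV1, hV2, hV3⟩ := hM₀ M hM _ ⟨y, rfl⟩ s hs
    have key := Pool.Agent.N639.FG.cnt_of hV1 hV2
      (Q := fun m : Fin d → ℕ => RepLaw b s N₀ (A * log M) ε (∑ j, m j * ω j + y))
      (fun m _ hm => hV3 _ hm)
    rw [Pool.Agent.Y933.KD.card_box] at key
    push_cast at key
    exact key
  refine ⟨?_, P2⟩
  intro A ε hA hε
  have halg : IsAlgebraic ℚ (√2 : ℝ) := by
    refine ⟨X ^ 2 - C 2, (Polynomial.monic_X_pow_sub_C (2 : ℚ) (by norm_num)).ne_zero, ?_⟩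
    rw [map_sub, map_pow, aeval_X, aeval_C, Real.sq_sqrt (by norm_num : (0 : ℝ) ≤ 2), map_ofNat,
      sub_self]
  obtain ⟨N₀, M₀, h⟩ := P2 1 (fun _ => √2) 0 halg irrational_sqrt_two 2 A ε le_rfl hA hε
  refine ⟨N₀, M₀, fun M hM y s hs => ?_⟩
  have key := h M hM y s hs
  rw [pow_one] at key
  refine le_trans (le_of_eq ?_) key
  have h1 := Pool.Agent.U864.DL.card_box_one M
    (fun m => ¬ RepLaw 2 s N₀ (A * log M) ε (∑ j, (m j : ℝ) * √2 + y))
    (fun m => ¬ RepLaw 2 s N₀ (A * log M) ε (m * √2 + y)) fun m => by rw [Fin.sum_univ_one]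
  exact congrArg (Nat.cast : ℕ → ℝ) h1.symm

end Pool.Agent.Results.MP_0308e6_nt.RepeatedWords
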